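import Pool.Agent.Q113.XM.Stm

/-!
# Project XM, job SPL: splitting at a level
-/

set_option autoImplicit false

namespace Pool.Agent.Q251.XM

open Finset Pool.Agent.Q54.EM Pool.Agent.Q113.XM

section

variable {ι : Type} [Fintype ι] {p y : ι → ℝ}

theorem EE_mono (hp : ∀ i, 0 ≤ p i) (n : ℕ) : ∀ f f' : ℝ → ℝ, (∀ s, f s ≤ f' s) →
    EE p y n f ≤ EE p y n f' := by
  induction n with
  | zero =>
    intro f f' h
    exact h 0
  | succ n ih =>
    intro f f' h
    show ∑ i, p i * EE p y n (fun s => f (s + y i)) ≤ ∑ i, p i * EE p y n (fun s => f' (s + y i))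
    exact sum_le_sum fun i _ => mul_le_mul_of_nonneg_left (ih _ _ fun s => h _) (hp i)

theorem EE_nonneg (hp : ∀ i, 0 ≤ p i) (n : ℕ) : ∀ f : ℝ → ℝ, (∀ s, 0 ≤ f s) → 0 ≤ EE p y n f := by
  induction n with
  | zero =>
    intro f h
    exact h 0
  | succ n ih =>
    intro f h
    show 0 ≤ ∑ i, p i * EE p y n (fun s => f (s + y i))
    exact sum_nonneg fun i _ => mul_nonneg (hp i) (ih _ fun s => h _)

theorem UP_nonneg (hp : ∀ i, 0 ≤ p i) (n : ℕ) (t : ℝ) : 0 ≤ UP p y n t := by
  unfold UP
  refine EE_nonneg hp n _ fun s => ?_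
  split_ifs <;> norm_num

theorem UP_anti (hp : ∀ i, 0 ≤ p i) (n : ℕ) {t t' : ℝ} (h : t ≤ t') : UP p y n t' ≤ UP p y n t := by
  unfold UP
  refine EE_mono hp n _ _ fun s => ?_
  split_ifs with h1 h2 h2
  · exact le_rfl
  · exact absurd (h.trans h1) h2
  · norm_num
  · exact le_rfl

theorem UP_succ (n : ℕ) (t : ℝ) : UP p y (n + 1) t = ∑ i, p i * UP p y n (t - y i) := by
  unfold UP
  show ∑ i, p i * EE p y n (fun s => if t ≤ s + y i then (1 : ℝ) else 0) = _
  refine sum_congr rfl fun i _ => ?_
  congr 2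
  funext s
  by_cases h : t ≤ s + y i
  · rw [if_pos h, if_pos (by linarith)]
  · rw [if_neg h, if_neg (by intro h'; exact h (by linarith))]

theorem split_ineq (hp : ∀ i, 0 ≤ p i) (hp1 : ∑ i, p i ≤ 1) {g P : ℝ} (hP : 0 < P) (n : ℕ) : ∀ t : ℝ,
    UP p y n t ≤ P ^ n * UP (fun i => if g < y i then p i / P else 0) y n t + n * UP p y (n - 1) (t - g) := by
  induction n with
  | zero =>
    intro t
    simp [UP, EE]
  | succ n ih =>
    intro t
    set q : ι → ℝ := fun i => if g < y i then p i / P else 0 with hq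
    rw [UP_succ, UP_succ, Nat.add_sub_cancel]
    have hU0 : 0 ≤ UP p y n (t - g) := UP_nonneg hp n _
    have key : ∀ i, p i * UP p y n (t - y i) ≤ P ^ (n + 1) * (q i * UP q y n (t - y i)) +
        (n * (p i * UP p y (n - 1) (t - g - y i)) + p i * UP p y n (t - g)) := by
      intro i
      have h1 : 0 ≤ UP p y (n - 1) (t - g - y i) := UP_nonneg hp _ _
      have hpi := hp i
      have hn : (0 : ℝ) ≤ n := Nat.cast_nonneg n
      by_cases h : g < y i
      · have e1 : q i = p i / P := by simp only [hq]; rw [if_pos h]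
        have h2 := mul_le_mul_of_nonneg_left (ih (t - y i)) hpi
        have e2 : P ^ (n + 1) * (q i * UP q y n (t - y i)) = p i * (P ^ n * UP q y n (t - y i)) := by
          rw [e1, pow_succ]
          field_simp
        rw [e2]
        have e3 : t - y i - g = t - g - y i := by ring
        rw [e3] at h2
        have h3 : 0 ≤ p i * UP p y n (t - g) := mul_nonneg hpi hU0
        linarith
      · have e1 : q i = 0 := by simp only [hq]; rw [if_neg h]
        rw [e1, zero_mul, mul_zero, zero_add]
        have h2 : UP p y n (t - y i) ≤ UP p y n (t - g) := UP_anti hp n (by linarith [not_lt.1 h])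
        have h3 := mul_le_mul_of_nonneg_left h2 hpi
        have h4 : 0 ≤ (n : ℝ) * (p i * UP p y (n - 1) (t - g - y i)) := by positivity
        linarith
    have hsum := sum_le_sum fun i (_ : i ∈ univ) => key i
    rw [sum_add_distrib, sum_add_distrib, ← mul_sum, ← mul_sum, ← sum_mul] at hsum
    have h5 : (n : ℝ) * ∑ i, p i * UP p y (n - 1) (t - g - y i) = n * UP p y n (t - g) := by
      rcases Nat.eq_zero_or_pos n with h0 | h0
      · rw [h0]; simp
      · obtain ⟨m, rfl⟩ : ∃ m, n = m + 1 := ⟨n - 1, by omega⟩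
        rw [Nat.add_sub_cancel, ← UP_succ]
    have h6 : (∑ i, p i) * UP p y n (t - g) ≤ 1 * UP p y n (t - g) := mul_le_mul_of_nonneg_right hp1 hU0
    rw [h5] at hsum
    push_cast
    linarith

end

theorem t_SPL : S_SPL := by
  intro k hk ι _ p y g P hW hP hP0
  have hq0 : ∀ i, 0 ≤ (if g < y i then p i / P else 0) := by
    intro i
    split_ifs
    · exact div_nonneg (hW.p0 i) hP0.le
    · exact le_rfl
  refine ⟨⟨hq0, ?_, hW.y0⟩, ?_, split_ineq hW.p0 hW.p1.le hP0 k 1⟩
  · have h1 : ∀ i, (if g < y i then p i / P else 0) = (if g < y i then p i else 0) / P := by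
      intro i
      split_ifs
      · rfl
      · rw [zero_div]
    simp_rw [h1]
    rw [← sum_div, ← hP, div_self hP0.ne']
  · unfold mu
    rw [mul_sum]
    refine sum_le_sum fun i _ => ?_
    have h0 := mul_nonneg (hW.p0 i) (hW.y0 i)
    show P * ((if g < y i then p i / P else 0) * y i) ≤ p i * y i
    split_ifs
    · have : P * (p i / P * y i) = p i * y i := by field_simp
      rw [this]
    · rw [zero_mul, mul_zero]
      exact h0

end Pool.Agent.Q251.XM
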